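import Pool.Agent.W477.GM.Stms

set_option maxHeartbeats 1000000
set_option linter.all false

/-!
# GM, part VG1: every symmetric name is the value of a symmetric name of the first forcing
-/

namespace Pool.Agent.W477.GM.VG1h392

open Pool.Agent.W477.GM

section flips

variable {C : Type} {L : C → ℕ∞}

theorem fl_fl (z : J → Ordinal.{0} → Bool) (p : Cn C L) : fl z (fl z p) = p := by
  refine Cn.ext' (p := fl z (fl z p)) (q := p) rfl (fun j => rfl) ?_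
  intro j o ho
  have ho' : o < p.len j := ho
  simp [fl, ho']

variable [PartialOrder C] [OrderTop C]

theorem fl_mono (z : J → Ordinal.{0} → Bool) {p q : Cn C L} (h : p ≤ q) : fl z p ≤ fl z q := by
  rw [Cn.le_def] at h ⊢
  refine ⟨h.1, fun j => ⟨(h.2 j).1, fun o ho => ?_⟩⟩
  have ho' : o < q.len j := ho
  have ho2 : o < p.len j := lt_of_lt_of_le ho' (h.2 j).1
  simp [fl, ho', ho2, (h.2 j).2 o ho']

/-- the flip as an order isomorphism -/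
noncomputable def flE (z : J → Ordinal.{0} → Bool) : Cn C L ≃o Cn C L where
  toFun := fl z
  invFun := fl z
  left_inv := fl_fl z
  right_inv := fl_fl z
  map_rel_iff' := by
    intro p q
    constructor
    · intro h
      have h1 : fl z (fl z p) ≤ fl z (fl z q) := fl_mono z h
      rwa [fl_fl, fl_fl] at h1
    · exact fl_mono z

end flips

theorem pj_fl (z : J → Ordinal.{0} → Bool) (q : QQ) : pj (fl z q) = fl z (pj q) := by
  apply Cn.ext' rfl (fun j => rfl)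
  intro j o ho
  rfl

theorem pj_rs (K : J → Prop) (q : QQ) : pj (rs K q) = rs K (pj q) := by
  apply Cn.ext' rfl (fun j => rfl)
  intro j o ho
  rfl

theorem pj_mono {q r : QQ} (h : q ≤ r) : pj q ≤ pj r := ⟨le_rfl, h.2⟩

theorem le_of_pj {q r : QQ} (hc : q.c ≤ r.c) (h : pj q ≤ pj r) : q ≤ r := ⟨hc, h.2⟩

section names

variable {P : Type 1} [PartialOrder P] [OrderTop P]

theorem feq_mk {ι κ : Type} {U : ι → P → Prop} {x : ι → Nm P} {W : κ → P → Prop} {y : κ → Nm P}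
    {p : P} : feq (.mk ι U x) (.mk κ W y) p ↔
    (∀ i q, q ≤ p → Lab (U i) q → ∃ r, r ≤ q ∧ ∃ j, Lab (W j) r ∧ feq (x i) (y j) r) ∧
    (∀ j q, q ≤ p → Lab (W j) q → ∃ r, r ≤ q ∧ ∃ i, Lab (U i) r ∧ feq (x i) (y j) r) := by
  rw [feq]

theorem fmem_mk {x : Nm P} {κ : Type} {W : κ → P → Prop} {y : κ → Nm P}
    {p : P} : fmem x (.mk κ W y) p ↔
    ∀ q, q ≤ p → ∃ r, r ≤ q ∧ ∃ j, Lab (W j) r ∧ feq x (y j) r := by
  rw [fmem]

theorem act_mk (g : P ≃o P) {ι : Type} (U : ι → P → Prop) (x : ι → Nm P) :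
    act g (.mk ι U x) = .mk ι (fun i u => U i (g.symm u)) (fun i => act g (x i)) := by
  rw [act]

theorem rk_child {ι : Type} (U : ι → P → Prop) (x : ι → Nm P) (i : ι) :
    rk (x i) < rk (.mk ι U x) := by
  rw [rk]
  exact lt_of_lt_of_le (Order.lt_succ _) (Ordinal.le_iSup (fun i => Order.succ (rk (x i))) i)

end names

theorem lift_mk {ι : Type} (U : ι → PP → Prop) (x : ι → Nm PP) :
    lift (.mk ι U x) = .mk ι (fun i q => U i (pj q)) (fun i => lift (x i)) := by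
  rw [lift]

/-- the labels -/
def lb {I : Type} (Y : I → Nm QQ) (a : Ordinal.{0}) (k l : I) (c : Str) (r : PP) : Prop :=
  rs (fun j => j.1 < a) r = r ∧ ∃ q : QQ, pj q = r ∧ q.c = c ∧ fmem (Y l) (Y k) q

/-- the recursion -/
noncomputable def T {I : Type} (Y : I → Nm QQ) (a : Ordinal.{0}) (k : I) : Nm PP :=
  .mk {lc : I × Str // rk (Y lc.1) < rk (Y k)} (fun lc => lb Y a k lc.1.1 lc.1.2)
    (fun lc => opN (T Y a lc.1.1) (chk (cd lc.1.2)))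
termination_by rk (Y k)
decreasing_by exact lc.2

theorem T_eq {I : Type} (Y : I → Nm QQ) (a : Ordinal.{0}) (k : I) : T Y a k =
    .mk {lc : I × Str // rk (Y lc.1) < rk (Y k)} (fun lc => lb Y a k lc.1.1 lc.1.2)
    (fun lc => opN (T Y a lc.1.1) (chk (cd lc.1.2))) := by
  rw [T]

/-- the facts that are used -/
structure Ctx {I : Type} (Y : I → Nm QQ) (a : Ordinal.{0}) : Prop where
  eP : EqF PP
  eQ : EqF QQ
  aP : ActF PP
  aQ : ActF QQ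
  pP : PrF PP
  pQ : PrF QQ
  hP : HsF PP SP
  hQ : HsF QQ SQ
  sP : SysAx SP
  sQ : SysAx SQ
  dQ : ∀ (x y : Nm QQ) p, Liv SQ a x → Liv SQ a y → fmem x y p → fmem x y (SQ.rho a p)
  lf : LiftF
  lh1 : ∀ x, HS SP x → HS SQ (lift x)
  lh3 : ∀ (g : PP ≃o PP) (h : QQ ≃o QQ), (∀ q, pj (h q) = g (pj q)) → ∀ x,
    act h (lift x) = lift (act g x)
  inj : ∀ c d, (cd c).Equiv (cd d) → c = d
  hY : ∀ k, HS SQ (Y k)
  hLiv : ∀ k, Liv SQ a (Y k)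
  hch : ∀ k (ι : Type) (U : ι → QQ → Prop) (y : ι → Nm QQ), Y k = .mk ι U y → ∀ i, ∃ l, Y l = y i
  hact : ∀ g, g ∈ SQ.G → ∀ k, ∃ l, Y l = act g (Y k)

section main

variable {I : Type} {Y : I → Nm QQ} {a : Ordinal.{0}}

/-- (0), first direction -/
theorem lab_fmem (X : Ctx Y a) {k l : I} {c : Str} {r : QQ} (hr : r.c ≤ c)
    (h : Lab (lb Y a k l c) (pj r)) : fmem (Y l) (Y k) r := by
  obtain ⟨u, ⟨_, q, hq, hqc, hm⟩, hu⟩ := h
  subst hq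
  subst hqc
  exact X.eQ.mmono _ _ _ _ (le_of_pj hr hu) hm

/-- (0), second direction -/
theorem fmem_lab (X : Ctx Y a) {k l : I} {r : QQ} (h : fmem (Y l) (Y k) r) :
    Lab (lb Y a k l r.c) (pj r) := by
  have h1 := X.dQ _ _ r (X.hLiv l) (X.hLiv k) h
  refine ⟨pj (SQ.rho a r), ⟨?_, SQ.rho a r, rfl, rfl, h1⟩, pj_mono (X.sQ.le_rho a r)⟩
  have h2 := X.sQ.rho_rho a a r le_rfl
  have h3 : pj (SQ.rho a (SQ.rho a r)) = rs (fun j => j.1 < a) (pj (SQ.rho a r)) := pj_rs _ _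
  rw [← h3, h2]

theorem Lab_of (X : Ctx Y a) {k l : I} {c : Str} {r : QQ}
    (h : Lab (fun q => lb Y a k l c (pj q)) r) : Lab (lb Y a k l c) (pj r) := by
  obtain ⟨u, hu, hr⟩ := h
  exact ⟨pj u, hu, pj_mono hr⟩

/-- (*) -/
theorem star (X : Ctx Y a) (g : QQ ≃o QQ) (g' : PP ≃o PP) (hg : g ∈ SQ.G) (hg' : g' ∈ SP.G)
    (hc : ∀ q, (g q).c = q.c) (hpj : ∀ q, pj (g q) = g' (pj q)) :
    ∀ (o : Ordinal.{0}) (k k' : I), rk (Y k) = o → rk (Y k') = o →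
      (∀ q, feq (act g (Y k)) (Y k') q) → ∀ p, feq (act g' (T Y a k)) (T Y a k') p := by
  have hc' : ∀ q, (g.symm q).c = q.c := by
    intro q
    have := hc (g.symm q)
    rw [OrderIso.apply_symm_apply] at this
    exact this.symm
  have hpj' : ∀ q, pj (g.symm q) = g'.symm (pj q) := by
    intro q
    have := hpj (g.symm q)
    rw [OrderIso.apply_symm_apply] at this
    rw [this, OrderIso.symm_apply_apply]
  intro o
  induction o using WellFoundedLT.induction with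
  | ind o ih =>
  intro k k' hk hk' hfe p
  rw [T_eq Y a k, T_eq Y a k', act_mk, feq_mk]
  constructor
  · rintro ⟨⟨l, c⟩, hlt⟩ q hq ⟨u, ⟨hu1, q0, hq0, hq0c, hm⟩, hqu⟩
    obtain ⟨l', hl'⟩ := X.hact g hg l
    have hrl : rk (Y l') = rk (Y l) := by rw [hl', X.aQ.rk]
    have hlt' : rk (Y l) < rk (Y k) := hlt
    refine ⟨q, le_rfl, ⟨⟨l', c⟩, by show rk (Y l') < rk (Y k'); rw [hrl, hk', ← hk]; exact hlt'⟩,
      ⟨u, ⟨?_, g q0, ?_, ?_, ?_⟩, hqu⟩, ?_⟩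
    · have h1 := X.sP.rho_act g' hg' a (g'.symm u)
      rw [OrderIso.apply_symm_apply] at h1
      have h2 : SP.rho a (g'.symm u) = g'.symm u := hu1
      rw [h2, OrderIso.apply_symm_apply] at h1
      exact h1
    · rw [hpj, hq0, OrderIso.apply_symm_apply]
    · rw [hc, hq0c]
    · have h3 := (X.aQ.fmem g (Y l) (Y k) q0).mpr hm
      refine X.eQ.mcongr _ _ _ _ _ ?_ (hfe _) h3
      show feq (act g (Y l)) (Y l') (g q0)
      rw [hl']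
      exact X.eQ.refl _ _
    · show feq (act g' (opN (T Y a l) (chk (cd c)))) (opN (T Y a l') (chk (cd c))) q
      rw [X.aP.op, X.aP.chk]
      refine (X.pP.op _ _ _ _ _).mpr ⟨?_, X.eP.refl _ _⟩
      refine ih (rk (Y l)) (hk ▸ hlt') l l' rfl hrl ?_ q
      intro q1
      rw [hl']
      exact X.eQ.refl _ _
  · rintro ⟨⟨l', c⟩, hlt⟩ q hq ⟨u, ⟨hu1, q1, hq1, hq1c, hm⟩, hqu⟩
    have hlt' : rk (Y l') < rk (Y k') := hlt
    obtain ⟨l, hl⟩ := X.hact g⁻¹ (X.sQ.inv g hg) l'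
    have hrl : rk (Y l) = rk (Y l') := by rw [hl, X.aQ.rk]
    have hgl : act g (Y l) = Y l' := by
      rw [hl, ← X.aQ.mul, mul_inv_cancel, X.aQ.one]
    have hlk : rk (Y l) < rk (Y k) := by rw [hrl, hk, ← hk']; exact hlt'
    refine ⟨q, le_rfl, ⟨⟨l, c⟩, hlk⟩, ⟨u, ⟨?_, g.symm q1, ?_, ?_, ?_⟩, hqu⟩, ?_⟩
    · have h1 := X.sP.rho_act g' hg' a (g'.symm u)
      rw [OrderIso.apply_symm_apply] at h1
      have h2 : SP.rho a u = u := hu1
      rw [h2] at h1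
      apply g'.injective
      rw [OrderIso.apply_symm_apply]
      exact h1.symm
    · rw [hpj', hq1]
    · rw [hc', hq1c]
    · refine (X.aQ.fmem g (Y l) (Y k) (g.symm q1)).mp ?_
      rw [OrderIso.apply_symm_apply]
      refine X.eQ.mcongr _ _ _ _ _ ?_ (X.eQ.symm _ _ _ (hfe _)) hm
      rw [hgl]
      exact X.eQ.refl _ _
    · show feq (act g' (opN (T Y a l) (chk (cd c)))) (opN (T Y a l') (chk (cd c))) q
      rw [X.aP.op, X.aP.chk]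
      refine (X.pP.op _ _ _ _ _).mpr ⟨?_, X.eP.refl _ _⟩
      refine ih (rk (Y l)) (hk ▸ hlk) l l' rfl hrl.symm ?_ q
      intro q2
      rw [hgl]
      exact X.eQ.refl _ _

theorem ex_of_Q {g : QQ ≃o QQ} (hg : g ∈ SQ.G) : ∃ g' : PP ≃o PP, g' ∈ SP.G ∧
    (∀ q, (g q).c = q.c) ∧ ∀ q, pj (g q) = g' (pj q) := by
  obtain ⟨z, hz, hgz⟩ := hg
  refine ⟨flE z, ⟨z, hz, fun p => rfl⟩, fun q => ?_, fun q => ?_⟩
  · rw [hgz]; rfl
  · rw [hgz, pj_fl]; rfl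

theorem ex_of_P {e : SP.E} {g' : PP ≃o PP} (hg : g' ∈ SP.fix e) : ∃ g : QQ ≃o QQ,
    g ∈ SQ.fix e ∧ (∀ q, (g q).c = q.c) ∧ ∀ q, pj (g q) = g' (pj q) := by
  obtain ⟨z, hz, hez, hgz⟩ := hg
  refine ⟨flE z, ⟨z, hz, hez, fun p => rfl⟩, fun q => rfl, fun q => ?_⟩
  rw [hgz]
  exact pj_fl z q

/-- (1) -/
theorem T_hs (X : Ctx Y a) : ∀ (o : Ordinal.{0}) (k : I), rk (Y k) = o → HS SP (T Y a k) := by
  intro o
  induction o using WellFoundedLT.induction with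
  | ind o ih =>
  intro k hk
  have hsupp : ∃ e, ∀ g, g ∈ SP.fix e → ∀ p, feq (act g (T Y a k)) (T Y a k) p := by
    obtain ⟨e, he⟩ := X.hQ.supp (Y k) (X.hY k)
    refine ⟨e, fun g' hg' p => ?_⟩
    obtain ⟨g, hg, hc, hpj⟩ := ex_of_P hg'
    exact star X g g' (X.sQ.fsub e g hg) (X.sP.fsub e g' hg') hc hpj o k k hk hk (he g hg) p
  rw [T_eq] at hsupp ⊢
  rw [HS]
  refine ⟨⟨a, fun i u hu => hu.1⟩, hsupp, fun i => ?_⟩
  exact X.hP.op _ _ (ih _ (hk ▸ i.2) _ rfl) (X.hP.chk _)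

/-- the evaluation -/
noncomputable def FN (Y : I → Nm QQ) (a : Ordinal.{0}) : Nm QQ :=
  .mk I (fun _ u => u = ⊤) (fun k => opN (lift (T Y a k)) (Y k))

/-- (2) -/
theorem F_hs (X : Ctx Y a) : HS SQ (FN Y a) := by
  have key : ∀ g, g ∈ SQ.G → ∀ p, feq (act g (FN Y a)) (FN Y a) p := by
    intro g hg p
    obtain ⟨g', hg', hc, hpj⟩ := ex_of_Q hg
    have child : ∀ k k' : I, Y k' = act g (Y k) → ∀ r,
        feq (act g (opN (lift (T Y a k)) (Y k))) (opN (lift (T Y a k')) (Y k')) r := by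
      intro k k' hkk' r
      rw [X.aQ.op, X.lh3 g' g hpj]
      refine (X.pQ.op _ _ _ _ _).mpr ⟨?_, ?_⟩
      · rw [X.lf.feq]
        refine star X g g' hg hg' hc hpj (rk (Y k)) k k' rfl ?_ ?_ _
        · rw [hkk', X.aQ.rk]
        · intro q
          rw [hkk']
          exact X.eQ.refl _ _
      · rw [hkk']
        exact X.eQ.refl _ _
    have htop : g ⊤ = ⊤ := X.hQ.top g
    unfold FN
    rw [act_mk, feq_mk]
    constructor
    · intro k q hq hlab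
      obtain ⟨k', hk'⟩ := X.hact g hg k
      exact ⟨q, le_rfl, k', X.pQ.top q, child k k' hk' q⟩
    · intro k' q hq hlab
      obtain ⟨k, hk⟩ := X.hact g⁻¹ (X.sQ.inv g hg) k'
      refine ⟨q, le_rfl, k, ⟨⊤, ?_, le_top⟩, child k k' ?_ q⟩
      · show g.symm ⊤ = ⊤
        exact g.symm.map_top
      · rw [hk, ← X.aQ.mul, mul_inv_cancel, X.aQ.one]
  obtain ⟨e⟩ := X.sQ.ne
  unfold FN at key ⊢
  rw [HS]
  refine ⟨⟨0, fun i u hu => ?_⟩, ⟨e, fun g hg => key g (X.sQ.fsub e g hg)⟩, fun k => ?_⟩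
  · rw [hu]
    exact X.hQ.rtop 0
  · exact X.hQ.op _ _ (X.lh1 _ (T_hs X _ k rfl)) (X.hY k)

theorem step (X : Ctx Y a) {l l' m : I} {s : QQ} (hT : feq (T Y a l) (T Y a l') (pj s))
    (hr : rk (Y m) < rk (Y l)) (hm : fmem (Y m) (Y l) s) :
    ∃ s', s' ≤ s ∧ ∃ m', rk (Y m') < rk (Y l') ∧ fmem (Y m') (Y l') s' ∧
      feq (T Y a m) (T Y a m') (pj s') := by
  rw [T_eq Y a l, T_eq Y a l', feq_mk] at hT
  obtain ⟨r0, hr0, ⟨⟨m', c'⟩, hlt⟩, hlab, hfe⟩ :=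
    hT.1 ⟨⟨m, s.c⟩, hr⟩ (pj s) le_rfl (fmem_lab X hm)
  have hfe' := (X.pP.op _ _ _ _ _).mp hfe
  have hc : s.c = c' := X.inj _ _ ((X.pP.chk_eq _ _ _).mp hfe'.2)
  obtain ⟨s', hs', hps'⟩ := X.lf.proj s r0 hr0
  refine ⟨s', hs', m', hlt, ?_, ?_⟩
  · refine lab_fmem X (c := c') (hc ▸ hs'.1) ?_
    rw [hps']
    exact hlab
  · rw [hps']
    exact hfe'.1

/-- (3) -/
theorem feq_of (X : Ctx Y a) : ∀ (o : Ordinal.{0}) (l : I), rk (Y l) = o → ∀ (l' : I) (r : QQ),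
    feq (T Y a l) (T Y a l') (pj r) → feq (Y l) (Y l') r := by
  intro o
  induction o using WellFoundedLT.induction with
  | ind o ih =>
  intro l hl l' r hT
  have hd1 : ∀ m q, q ≤ r → rk (Y m) < rk (Y l) → fmem (Y m) (Y l) q → fmem (Y m) (Y l') q := by
    intro m q hq hm hmem
    apply X.eQ.mdense
    intro s hs
    obtain ⟨s', hs', m', hlt, h1, h2⟩ := step X
      (X.eP.mono _ _ _ _ (pj_mono (hs.trans hq)) hT) hm (X.eQ.mmono _ _ _ _ hs hmem)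
    refine ⟨s', hs', ?_⟩
    have h3 := ih (rk (Y m)) (hl ▸ hm) m rfl m' s' h2
    exact X.eQ.mcongr _ _ _ _ _ (X.eQ.symm _ _ _ h3) (X.eQ.refl _ _) h1
  have hd2 : ∀ m' q, q ≤ r → rk (Y m') < rk (Y l') → fmem (Y m') (Y l') q →
      fmem (Y m') (Y l) q := by
    intro m' q hq hm hmem
    apply X.eQ.mdense
    intro s hs
    obtain ⟨s', hs', m, hlt, h1, h2⟩ := step X
      (X.eP.symm _ _ _ (X.eP.mono _ _ _ _ (pj_mono (hs.trans hq)) hT)) hm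
      (X.eQ.mmono _ _ _ _ hs hmem)
    refine ⟨s', hs', ?_⟩
    have h3 := ih (rk (Y m)) (hl ▸ hlt) m rfl m' s' (X.eP.symm _ _ _ h2)
    exact X.eQ.mcongr _ _ _ _ _ h3 (X.eQ.refl _ _) h1
  have h1 := X.hch l
  have h2 := X.hch l'
  have hc1 : ∀ (ι : Type) (U : ι → QQ → Prop) (y : ι → Nm QQ), Y l = .mk ι U y → ∀ i q, q ≤ r →
      fmem (y i) (Y l) q → fmem (y i) (Y l') q := by
    intro ι U y hyl i q hq hmem
    obtain ⟨m, hm⟩ := h1 ι U y hyl i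
    have hrk : rk (Y m) < rk (Y l) := by
      rw [hm, hyl]; exact rk_child U y i
    have h3 := hd1 m q hq hrk (by rw [hm]; exact hmem)
    rwa [hm] at h3
  have hc2 : ∀ (ι : Type) (U : ι → QQ → Prop) (y : ι → Nm QQ), Y l' = .mk ι U y → ∀ i q, q ≤ r →
      fmem (y i) (Y l') q → fmem (y i) (Y l) q := by
    intro ι U y hyl i q hq hmem
    obtain ⟨m, hm⟩ := h2 ι U y hyl i
    have hrk : rk (Y m) < rk (Y l') := by
      rw [hm, hyl]; exact rk_child U y i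
    have h3 := hd2 m q hq hrk (by rw [hm]; exact hmem)
    rwa [hm] at h3
  rcases hyl : Y l with ⟨ι, U, y⟩
  rcases hyl' : Y l' with ⟨κ, W, y'⟩
  rw [hyl, hyl'] at hc1 hc2
  exact X.eQ.ext ι U y κ W y' r (hc1 ι U y rfl) (hc2 κ W y' rfl)

theorem memF (X : Ctx Y a) {t y : Nm QQ} {p q : QQ} (h : fmem (opN t y) (FN Y a) p)
    (hq : q ≤ p) : ∃ r, r ≤ q ∧ ∃ k, feq t (lift (T Y a k)) r ∧ feq y (Y k) r := by
  unfold FN at h
  rw [fmem_mk] at h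
  obtain ⟨r, hr, k, _, hk⟩ := h q hq
  exact ⟨r, hr, k, (X.pQ.op _ _ _ _ _).mp hk⟩

theorem childF (X : Ctx Y a) (k : I) (p : QQ) :
    fmem (opN (lift (T Y a k)) (Y k)) (FN Y a) p :=
  X.eQ.child I (fun _ u => u = ⊤) (fun k => opN (lift (T Y a k)) (Y k)) k p (X.pQ.top p)

theorem childF' (X : Ctx Y a) {k : I} {p : QQ} {σ z : Nm QQ} (h1 : feq σ (lift (T Y a k)) p)
    (h2 : feq z (Y k) p) : fmem (opN σ z) (FN Y a) p :=
  X.eQ.mcongr _ _ _ _ _ ((X.pQ.op _ _ _ _ _).mpr ⟨X.eQ.symm _ _ _ h1, X.eQ.symm _ _ _ h2⟩)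
    (X.eQ.refl _ _) (childF X k p)

theorem liftpair (X : Ctx Y a) (l : I) (c : Str) (r : QQ) :
    feq (lift (opN (T Y a l) (chk (cd c)))) (opN (lift (T Y a l)) (chk (cd c))) r := by
  refine X.eQ.trans _ _ _ _ (X.lf.op _ _ _) ?_
  exact (X.pQ.op _ _ _ _ _).mpr ⟨X.eQ.refl _ _, X.lf.chk _ _⟩

theorem pairT (X : Ctx Y a) {k l : I} {r : QQ} (hr : rk (Y l) < rk (Y k))
    (h : fmem (Y l) (Y k) r) :
    fmem (opN (lift (T Y a l)) (chk (cd r.c))) (lift (T Y a k)) r := by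
  have h1 : fmem (opN (T Y a l) (chk (cd r.c))) (T Y a k) (pj r) := by
    rw [T_eq Y a k]
    exact X.eP.child _ (fun lc : {lc : I × Str // rk (Y lc.1) < rk (Y k)} =>
      lb Y a k lc.1.1 lc.1.2) (fun lc => opN (T Y a lc.1.1) (chk (cd lc.1.2)))
      ⟨(l, r.c), hr⟩ (pj r) (fmem_lab X h)
  rw [← X.lf.fmem] at h1
  exact X.eQ.mcongr _ _ _ _ _ (liftpair X l r.c r) (X.eQ.refl _ _) h1

theorem pairT_inv (X : Ctx Y a) {k : I} {σ : Nm QQ} {c : Str} {r1 : QQ} (hc : r1.c ≤ c)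
    (h : fmem (opN σ (chk (cd c))) (lift (T Y a k)) r1) :
    ∃ r2, r2 ≤ r1 ∧ ∃ l, rk (Y l) < rk (Y k) ∧ fmem (Y l) (Y k) r2 ∧
      feq σ (lift (T Y a l)) r2 := by
  rw [T_eq Y a k, lift_mk, fmem_mk] at h
  obtain ⟨r, hr, ⟨⟨l, c'⟩, hlt⟩, hlab, hfe⟩ := h r1 le_rfl
  have hfe1 := X.eQ.trans _ _ _ _ hfe (liftpair X l c' r)
  have hfe2 := (X.pQ.op _ _ _ _ _).mp hfe1
  have hcc : c = c' := X.inj _ _ ((X.pQ.chk_eq _ _ _).mp hfe2.2)
  exact ⟨r, hr, l, hlt, lab_fmem X (c := c') (hcc ▸ hr.1.trans hc) (Lab_of X hlab), hfe2.1⟩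

/-- (4) -/
theorem clause2 (X : Ctx Y a) (t y : Nm QQ) (p : QQ) (hty : fmem (opN t y) (FN Y a) p)
    (z : Nm QQ) : fmem z y p ↔ ∀ q, q ≤ p → ∃ r, r ≤ q ∧ ∃ σ c, HS SQ σ ∧ r.c ≤ c ∧
      fmem (opN σ (chk (cd c))) t r ∧ fmem (opN σ z) (FN Y a) r := by
  constructor
  · intro hz q hq
    obtain ⟨r, hr, k, htk, hyk⟩ := memF X hty hq
    have hz1 : fmem z (Y k) r :=
      X.eQ.mcongr _ _ _ _ _ (X.eQ.refl _ _) hyk (X.eQ.mmono _ _ _ _ (hr.trans hq) hz)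
    obtain ⟨r', hr', l, hlt, hlk, hzl⟩ : ∃ r', r' ≤ r ∧ ∃ l, rk (Y l) < rk (Y k) ∧
        fmem (Y l) (Y k) r' ∧ feq z (Y l) r' := by
      have h1 := X.hch k
      rcases hyl : Y k with ⟨ι, U, y'⟩
      rw [hyl, fmem_mk] at hz1
      obtain ⟨r', hr', i, hlab, hfe⟩ := hz1 r le_rfl
      obtain ⟨l, hl⟩ := h1 ι U y' hyl i
      refine ⟨r', hr', l, ?_, ?_, ?_⟩
      · rw [hl]; exact rk_child U y' i
      · rw [hl]; exact X.eQ.child ι U y' i r' hlab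
      · rw [hl]; exact hfe
    refine ⟨r', hr'.trans hr, lift (T Y a l), r'.c, X.lh1 _ (T_hs X _ l rfl), le_rfl, ?_, ?_⟩
    · exact X.eQ.mcongr _ _ _ _ _ (X.eQ.refl _ _)
        (X.eQ.symm _ _ _ (X.eQ.mono _ _ _ _ hr' htk)) (pairT X hlt hlk)
    · exact childF' X (X.eQ.refl _ _) hzl
  · intro hall
    apply X.eQ.mdense
    intro q hq
    obtain ⟨r, hr, σ, c, _, hrc, hσt, hσF⟩ := hall q hq
    obtain ⟨r1, hr1, k, htk, hyk⟩ := memF X hty (hr.trans hq)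
    have h1 : fmem (opN σ (chk (cd c))) (lift (T Y a k)) r1 :=
      X.eQ.mcongr _ _ _ _ _ (X.eQ.refl _ _) htk (X.eQ.mmono _ _ _ _ hr1 hσt)
    obtain ⟨r2, hr2, l, hlt, hlk, hσl⟩ := pairT_inv X (hr1.1.trans hrc) h1
    obtain ⟨r3, hr3, l', hσl', hzl'⟩ := memF X hσF (hr2.trans hr1)
    have h2 : feq (lift (T Y a l)) (lift (T Y a l')) r3 :=
      X.eQ.trans _ _ _ _ (X.eQ.symm _ _ _ (X.eQ.mono _ _ _ _ hr3 hσl)) hσl'
    rw [X.lf.feq] at h2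
    have h3 := feq_of X _ l rfl l' r3 h2
    refine ⟨r3, hr3.trans (hr2.trans (hr1.trans hr)), ?_⟩
    have h4 : feq (Y l) z r3 := X.eQ.trans _ _ _ _ h3 (X.eQ.symm _ _ _ hzl')
    have h5 : feq (Y k) y r3 := X.eQ.symm _ _ _ (X.eQ.mono _ _ _ _ (hr3.trans hr2) hyk)
    exact X.eQ.mcongr _ _ _ _ _ h4 h5 (X.eQ.mmono _ _ _ _ hr3 hlk)

theorem clause3 (X : Ctx Y a) (t : Nm QQ) (p : QQ) (σ : Nm QQ) (c : Str) (y : Nm QQ)
    (hty : fmem (opN t y) (FN Y a) p) (hσt : fmem (opN σ (chk (cd c))) t p) (hpc : p.c ≤ c)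
    (q : QQ) (hq : q ≤ p) : ∃ r, r ≤ q ∧ ∃ z, HS SQ z ∧ fmem (opN σ z) (FN Y a) r := by
  obtain ⟨r1, hr1, k, htk, hyk⟩ := memF X hty hq
  have h1 : fmem (opN σ (chk (cd c))) (lift (T Y a k)) r1 :=
    X.eQ.mcongr _ _ _ _ _ (X.eQ.refl _ _) htk (X.eQ.mmono _ _ _ _ (hr1.trans hq) hσt)
  obtain ⟨r2, hr2, l, hlt, hlk, hσl⟩ := pairT_inv X ((hr1.trans hq).1.trans hpc) h1
  exact ⟨r2, hr2.trans hr1, Y l, X.hY l, childF' X hσl (X.eQ.refl _ _)⟩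

end main

theorem vg1_holds (h : P_EQ) (h1 : P_ACT) (h2 : P_FC) (h3 : P_PR) (h4 : P_HS) (h5 : P_DEC)
    (hf : P_FAM) (hl : P_LIFT) (hlh : P_LIFTHS) (hco : P_COD) (hc : P_CAX) (hk : P_KAP)
    (hs : P_SYSC) : P_VG1 := by
  intro x hx
  have sP : SysAx SP := hs hk Unit (fun _ => (⊤ : ℕ∞)) hc.1
  have sQ : SysAx SQ := hs hk Str slen hc.2
  obtain ⟨I, Y, ⟨k0, hk0⟩, hY, ⟨a, hLiv⟩, hch, hact⟩ := hf QQ SQ sQ x hx
  have X : Ctx Y a :=
    { eP := h PP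
      eQ := h QQ
      aP := h1 PP
      aQ := h1 QQ
      pP := h3 PP
      pQ := h3 QQ
      hP := h4 PP SP sP
      hQ := h4 QQ SQ sQ
      sP := sP
      sQ := sQ
      dQ := fun x y p hx hy hm => (h5 QQ SQ sQ).2.2 x y p a hx hy hm
      lf := hl
      lh1 := hlh.1
      lh3 := hlh.2.2
      inj := (hco.1 PP).inj
      hY := hY
      hLiv := hLiv
      hch := hch
      hact := hact }
  refine ⟨T Y a k0, FN Y a, T_hs X _ k0 rfl, F_hs X, ?_, ?_, ?_⟩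
  · intro p
    have h6 := childF X k0 p
    rw [hk0] at h6
    exact h6
  · intro t y p _ _ hty z _
    exact clause2 X t y p hty z
  · intro t p σ c y _ _ _ hty hσt hpc q hq
    exact clause3 X t p σ c y hty hσt hpc q hq

end Pool.Agent.W477.GM.VG1h392
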